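import Mathlib

open Filter Topology

namespace Pool.Agent.Lib.MP_c8715f_al

/-- A Hausdorff Abelian topological group `(H, τ)` (written multiplicatively) is an s-group if,
for some set `S` of sequences in `H`, `τ` is the finest Hausdorff group topology on `H` in which
every sequence of `S` converges to the identity.  (`τ ≤ σ` means that `τ` is finer than `σ`.) -/
def IsSGroup (H : Type) [CommGroup H] [τ : TopologicalSpace H] : Prop :=
  IsTopologicalGroup H ∧ T2Space H ∧ ∃ S : Set (ℕ → H),
    (∀ u ∈ S, Tendsto u atTop (𝓝 1)) ∧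
    ∀ σ : TopologicalSpace H, @IsTopologicalGroup H σ _ → @T2Space H σ →
      (∀ u ∈ S, Tendsto u atTop (@nhds H σ 1)) → τ ≤ σ

end Pool.Agent.Lib.MP_c8715f_al
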