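import Pool.Agent.Lib.MP_c8715f_al.Defs

/-!
The group of bounded real functions on `ℝ` with countable support, with the sup norm: its dual
carries a sequentially continuous discontinuous character.
-/

open Filter Topology Set
open scoped ENNReal

namespace Pool.Agent.Lib.MP_c8715f_al

abbrev E : Type := lp (fun _ : ℝ => ℝ) ∞

/-- bounded functions with countable support -/
def GG : Submodule ℝ E where
  carrier := {f | (Function.support (f : ℝ → ℝ)).Countable}
  add_mem' := by
    intro f g hf hg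
    refine (Set.Countable.union hf hg).mono ?_
    rw [lp.coeFn_add]
    exact Function.support_add _ _
  zero_mem' := by
    show (Function.support ((0 : E) : ℝ → ℝ)).Countable
    rw [lp.coeFn_zero]; simp
  smul_mem' := by
    intro c f hf
    refine Set.Countable.mono ?_ hf
    intro x hx
    rw [lp.coeFn_smul] at hx
    intro h
    exact hx (by simp [h])

abbrev G : Type := GG

/-- value of `g` at `x` -/
def ev (g : G) (x : ℝ) : ℝ := ((g : E) : ℝ → ℝ) x

lemma ev_add (f g : G) (x : ℝ) : ev (f + g) x = ev f x + ev g x := rfl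

lemma ev_neg (f : G) (x : ℝ) : ev (-f) x = - ev f x := rfl

lemma ev_zero (x : ℝ) : ev 0 x = 0 := rfl

lemma ev_smul (c : ℝ) (f : G) (x : ℝ) : ev (c • f) x = c * ev f x := rfl

lemma ev_ext {f g : G} (h : ∀ x, ev f x = ev g x) : f = g :=
  Subtype.ext (lp.ext (funext h))

lemma countable_supp (g : G) : {x | ev g x ≠ 0}.Countable := g.2

lemma abs_ev_le (g : G) (x : ℝ) : |ev g x| ≤ ‖g‖ :=
  lp.norm_apply_le_norm (by simp) (g : E) x

lemma norm_le {g : G} {C : ℝ} (hC : 0 ≤ C) (h : ∀ x, |ev g x| ≤ C) : ‖g‖ ≤ C :=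
  lp.norm_le_of_forall_le hC h

lemma continuous_ev (x : ℝ) : Continuous (fun g : G => ev g x) :=
  (lp.lipschitzWith_one_eval (E := fun _ : ℝ => ℝ) ∞ x).continuous.comp continuous_subtype_val

/-- the indicator function of a countable set -/
noncomputable def ind (A : Set ℝ) (hA : A.Countable) : G :=
  ⟨⟨A.indicator (fun _ => (1 : ℝ)), memℓp_infty ⟨1, by
    rintro _ ⟨x, rfl⟩
    by_cases h : x ∈ A <;> simp [h]⟩⟩, hA.mono Set.support_indicator_subset⟩

lemma ev_ind (A : Set ℝ) (hA : A.Countable) (x : ℝ) :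
    ev (ind A hA) x = A.indicator (fun _ => (1 : ℝ)) x := rfl

lemma supp_of_separable {K : Set G} (hK : TopologicalSpace.IsSeparable K) :
    ∃ A : Set ℝ, A.Countable ∧ ∀ g ∈ K, ∀ x, x ∉ A → ev g x = 0 := by
  obtain ⟨c, hc, hKc⟩ := hK
  refine ⟨⋃ f ∈ c, {x | ev f x ≠ 0}, hc.biUnion fun f _ => countable_supp f, fun g hg x hx => ?_⟩
  have hcl : IsClosed {g : G | ev g x = 0} := isClosed_eq (continuous_ev x) continuous_const
  refine closure_minimal (fun f hf => ?_) hcl (hKc hg)
  by_contra h
  exact hx (mem_biUnion hf h)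

theorem not_separable : ¬ TopologicalSpace.SeparableSpace G := by
  intro h
  obtain ⟨A, hA, h1⟩ := supp_of_separable (TopologicalSpace.IsSeparable.of_separableSpace
    (univ : Set G))
  obtain ⟨x, hx⟩ : ∃ x, x ∉ A := by
    by_contra! h2
    exact Cardinal.not_countable_real (hA.mono fun x _ => h2 x)
  have := h1 (ind {x} (countable_singleton x)) (mem_univ _) x hx
  simp [ev_ind] at this

lemma exists_null (a : G → ℝ) (δ : ℝ) (hδ : 0 ≤ δ) (h1 : ∀ g, ‖g‖ ≤ δ → a g ≤ 2)
    (h2 : ∀ f g, ‖f‖ ≤ δ → ‖g‖ ≤ δ → a (f + g) = a f + a g) :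
    ∃ A : Set ℝ, A.Countable ∧ ∀ g, ‖g‖ ≤ δ → (∀ x ∈ A, ev g x = 0) → a g ≤ 0 := by
  have step : ∀ t : ℝ, (∃ A : Set ℝ, A.Countable ∧
      ∀ g, ‖g‖ ≤ δ → (∀ x ∈ A, ev g x = 0) → a g ≤ t) →
      ∃ A : Set ℝ, A.Countable ∧ ∀ g, ‖g‖ ≤ δ → (∀ x ∈ A, ev g x = 0) → a g ≤ t / 2 := by
    rintro t ⟨A, hA, h⟩
    by_contra! hc
    obtain ⟨f, hf1, hf2, hf3⟩ := hc A hA
    obtain ⟨g, hg1, hg2, hg3⟩ := hc (A ∪ {x | ev f x ≠ 0}) (hA.union (countable_supp f))
    have hn : ‖f + g‖ ≤ δ := by
      refine norm_le hδ fun x => ?_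
      rw [ev_add]
      by_cases hx : ev f x = 0
      · rw [hx, zero_add]; exact (abs_ev_le g x).trans hg1
      · rw [hg2 x (Or.inr hx), add_zero]; exact (abs_ev_le f x).trans hf1
    have := h (f + g) hn (fun x hx => by rw [ev_add, hf2 x hx, hg2 x (Or.inl hx), add_zero])
    rw [h2 f g hf1 hg1] at this
    linarith
  have all : ∀ n : ℕ, ∃ A : Set ℝ, A.Countable ∧
      ∀ g, ‖g‖ ≤ δ → (∀ x ∈ A, ev g x = 0) → a g ≤ 2 * (1 / 2) ^ n := by
    intro n
    induction n with
    | zero => exact ⟨∅, countable_empty, fun g hg _ => by simpa using h1 g hg⟩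
    | succ n ih =>
      have := step _ ih
      rwa [show 2 * (1 / 2 : ℝ) ^ n / 2 = 2 * (1 / 2) ^ (n + 1) by ring] at this
  choose A hA hA' using all
  refine ⟨⋃ n, A n, countable_iUnion hA, fun g hg hz => ?_⟩
  have ht : Tendsto (fun n : ℕ => 2 * (1 / 2 : ℝ) ^ n) atTop (𝓝 0) := by
    simpa using (tendsto_pow_atTop_nhds_zero_of_lt_one (r := (1 / 2 : ℝ)) (by norm_num)
      (by norm_num)).const_mul 2
  exact ge_of_tendsto' ht fun n => hA' n g hg fun x hx => hz x (mem_iUnion.2 ⟨n, hx⟩)

abbrev D : Type := PontryaginDual (Multiplicative G)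

lemma exists_supp (χ : D) : ∃ A : Set ℝ, A.Countable ∧
    ∀ g : G, (∀ x ∈ A, ev g x = 0) → χ (Multiplicative.ofAdd g) = 1 := by
  set a : G → ℝ := fun g => Complex.arg (χ (Multiplicative.ofAdd g)) with ha
  have ha0 : a 0 = 0 := by simp [ha]
  have hcont : ContinuousAt a 0 := by
    have h1 : Continuous (fun g : G => ((χ (Multiplicative.ofAdd g) : Circle) : ℂ)) :=
      continuous_subtype_val.comp ((map_continuous χ).comp continuous_ofAdd)
    refine ContinuousAt.comp (g := Complex.arg) (Complex.continuousAt_arg ?_) h1.continuousAt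
    simp
  obtain ⟨ε, hε, hball⟩ := Metric.continuousAt_iff.1 hcont 1 one_pos
  have hsmall : ∀ g : G, ‖g‖ ≤ ε / 2 → |a g| < 1 := by
    intro g hg
    have := hball (x := g) (by rw [dist_zero_right]; linarith)
    rwa [ha0, Real.dist_eq, sub_zero] at this
  have hadd : ∀ f g : G, ‖f‖ ≤ ε / 2 → ‖g‖ ≤ ε / 2 → a (f + g) = a f + a g := by
    intro f g hf hg
    have h1 := abs_lt.1 (hsmall f hf)
    have h2 := abs_lt.1 (hsmall g hg)
    simp only [ha, ofAdd_add, map_mul, Circle.coe_mul]
    apply Complex.arg_mul (Circle.coe_ne_zero _) (Circle.coe_ne_zero _)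
    have := Real.pi_gt_three
    constructor
    · change -Real.pi < a f + a g; linarith
    · change a f + a g ≤ Real.pi; linarith
  obtain ⟨A, hA, hnull⟩ := exists_null a (ε / 2) (by linarith)
    (fun g hg => by linarith [(abs_lt.1 (hsmall g hg)).2]) hadd
  refine ⟨A, hA, fun g hg => ?_⟩
  obtain ⟨m, hm⟩ := exists_nat_gt (‖g‖ / (ε / 2))
  have hm0 : (0 : ℝ) < m := lt_of_le_of_lt (by positivity) hm
  set f : G := (m : ℝ)⁻¹ • g with hf
  have hfn : ‖f‖ ≤ ε / 2 := by
    rw [hf, norm_smul, norm_inv, Real.norm_natCast, inv_mul_le_iff₀ hm0]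
    rw [div_lt_iff₀ (by linarith)] at hm
    exact hm.le
  have hfz : ∀ x ∈ A, ev f x = 0 := fun x hx => by rw [hf, ev_smul, hg x hx, mul_zero]
  have h1 := hnull f hfn hfz
  have h2 := hnull (-f) (by rwa [norm_neg]) (fun x hx => by rw [ev_neg, hfz x hx, neg_zero])
  have h3 := hadd f (-f) hfn (by rwa [norm_neg])
  rw [add_neg_cancel, ha0] at h3
  have h4 : χ (Multiplicative.ofAdd f) = 1 := Circle.arg_eq_zero.1 (by
    change a f = 0; linarith)
  have h5 : g = m • f := by
    rw [hf, ← Nat.cast_smul_eq_nsmul ℝ, smul_smul, mul_inv_cancel₀ hm0.ne', one_smul]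
  rw [h5, ofAdd_nsmul, map_pow, h4, one_pow]

/-- a countable set carrying the character -/
noncomputable def car (χ : D) : Set ℝ := (exists_supp χ).choose

lemma car_countable (χ : D) : (car χ).Countable := (exists_supp χ).choose_spec.1

/-- the value of a character at the constant function one, which is not in the group -/
noncomputable def phi (χ : D) : Circle := χ (Multiplicative.ofAdd (ind (car χ) (car_countable χ)))

lemma phi_eq (χ : D) {A : Set ℝ} (hA : A.Countable) (h : car χ ⊆ A) :
    phi χ = χ (Multiplicative.ofAdd (ind A hA)) := by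
  have e : ind A hA = ind (car χ) (car_countable χ) + ind (A \ car χ) (hA.mono sdiff_le) := by
    refine ev_ext fun x => ?_
    rw [ev_add, ev_ind, ev_ind, ev_ind]
    by_cases h1 : x ∈ car χ
    · simp [h1, h h1]
    · by_cases h2 : x ∈ A <;> simp [h1, h2]
  rw [e, ofAdd_add, map_mul, (exists_supp χ).choose_spec.2 (ind (A \ car χ) _), mul_one, phi]
  intro x hx
  rw [ev_ind]
  exact Set.indicator_of_notMem (fun h => h.2 hx) _

noncomputable def Phi : D →* Circle where
  toFun := phi
  map_one' := rfl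
  map_mul' χ ψ := by
    have hA : (car χ ∪ car ψ ∪ car (χ * ψ)).Countable :=
      ((car_countable χ).union (car_countable ψ)).union (car_countable _)
    rw [phi_eq (χ * ψ) hA subset_union_right,
      phi_eq χ hA (subset_union_left.trans subset_union_left),
      phi_eq ψ hA (subset_union_right.trans subset_union_left)]
    rfl

lemma seq_cont (u : ℕ → D) (hu : Tendsto u atTop (𝓝 1)) :
    Tendsto (fun n => Phi (u n)) atTop (𝓝 1) := by
  have hA : (⋃ n, car (u n)).Countable := countable_iUnion fun n => car_countable _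
  have h1 : ∀ n, Phi (u n) = u n (Multiplicative.ofAdd (ind _ hA)) := fun n =>
    phi_eq (u n) hA (subset_iUnion (fun n => car (u n)) n)
  simp only [h1]
  have hc : Continuous (fun χ : D => χ (Multiplicative.ofAdd (ind _ hA))) :=
    continuous_eval_const (F := Multiplicative G →ₜ* Circle) _
  exact (hc.tendsto 1).comp hu

/-- the character `g ↦ exp (i π g(x))` -/
noncomputable def pointChar (x : ℝ) : D :=
  ContinuousMonoidHom.mk
    { toFun := fun g => Circle.exp (Real.pi * ev (Multiplicative.toAdd g) x)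
      map_one' := by simp [ev_zero]
      map_mul' := fun f g => by rw [toAdd_mul, ev_add, mul_add, Circle.exp_add] }
    (Circle.exp.continuous.comp (continuous_const.mul ((continuous_ev x).comp continuous_toAdd)))

lemma pointChar_apply (x : ℝ) (g : Multiplicative G) :
    pointChar x g = Circle.exp (Real.pi * ev (Multiplicative.toAdd g) x) := rfl

lemma tendsto_pointChar : Tendsto pointChar cocountable (𝓝 1) := by
  refine ((ContinuousMonoidHom.isInducing_toContinuousMap (Multiplicative G)
    Circle).tendsto_nhds_iff (f := pointChar)).2 ?_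
  rw [ContinuousMap.tendsto_nhds_compactOpen]
  intro K hK U _ hKU
  obtain ⟨A, hA, h⟩ := supp_of_separable (K := K) hK.isSeparable
  have : Aᶜ ∈ (cocountable : Filter ℝ) := by rw [mem_cocountable, compl_compl]; exact hA
  filter_upwards [this] with x hx g hg
  have h1 : pointChar x g = 1 := by
    rw [pointChar_apply, h (Multiplicative.toAdd g) hg x hx]; simp
  have h2 : (1 : Circle) ∈ U := hKU hg
  change pointChar x g ∈ U
  rwa [h1]

lemma Phi_pointChar (x : ℝ) : Phi (pointChar x) = Circle.exp Real.pi := by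
  have hA : (insert x (car (pointChar x))).Countable := (car_countable _).insert x
  have e : Phi (pointChar x) = phi (pointChar x) := rfl
  rw [e, phi_eq _ hA (subset_insert _ _), pointChar_apply, toAdd_ofAdd, ev_ind]
  simp

theorem not_continuous_Phi : ¬ Continuous Phi := by
  intro h
  have hne : (cocountable : Filter ℝ).NeBot := by
    rw [Filter.neBot_iff, Ne, ← Filter.empty_mem_iff_bot, mem_cocountable, compl_empty]
    exact Cardinal.not_countable_real
  have h1 := (h.tendsto 1).comp tendsto_pointChar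
  have h2 : (Phi ∘ pointChar) = fun _ => Circle.exp Real.pi := funext Phi_pointChar
  rw [h2, map_one] at h1
  exact Circle.exp_pi_ne_one (tendsto_nhds_unique tendsto_const_nhds h1)

theorem not_isSGroup : ¬ IsSGroup D := by
  rintro ⟨hg, ht, S, hS, hfin⟩
  apply not_continuous_Phi
  have h1 := hfin ((inferInstance : TopologicalSpace D) ⊓ TopologicalSpace.induced Phi inferInstance)
    (topologicalGroup_inf hg (topologicalGroup_induced Phi))
    (t2Space_antitone inf_le_left ht) (fun u hu => by
      rw [nhds_inf, nhds_induced, tendsto_inf, tendsto_comap_iff, map_one]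
      exact ⟨hS u hu, seq_cont u (hS u hu)⟩)
  exact continuous_iff_le_induced.2 (h1.trans inf_le_right)

end Pool.Agent.Lib.MP_c8715f_al
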